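import Pool.Agent.Helper2.D5.W

/-!
# MP_fcb106_co, version 5: the rows WG, LW, CK
-/

set_option autoImplicit false

namespace Pool.Agent.Helper2.D5

open Finset Pool.Agent.Helper33.DP Pool.Agent.Helper63.D4 Pool.Agent.Helper26.D5

theorem ai {w : ℕ} (ρ : Equiv.Perm (Fin w)) (a : Fin w) : ρ (ρ⁻¹ a) = a :=
  Equiv.apply_symm_apply ρ a

theorem ia {w : ℕ} (ρ : Equiv.Perm (Fin w)) (a : Fin w) : ρ⁻¹ (ρ a) = a :=
  Equiv.symm_apply_apply ρ a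

/-- relabelling of the rows and of the columns -/
def rl {w : ℕ} (ρ κ : Equiv.Perm (Fin w)) (G : Gr w) : Gr w :=
  univ.filter (fun e => (ρ e.1, κ e.2) ∈ G)

section

variable {w : ℕ} {G G' : Gr w}

theorem mem_rl {ρ κ : Equiv.Perm (Fin w)} {a b : Fin w} : (a, b) ∈ rl ρ κ G ↔ (ρ a, κ b) ∈ G := by
  simp [rl]

theorem rl_inv (ρ κ : Equiv.Perm (Fin w)) (G : Gr w) : rl ρ⁻¹ κ⁻¹ (rl ρ κ G) = G := by
  ext ⟨a, b⟩
  rw [mem_rl, mem_rl, ai, ai]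

theorem rl_inv' (ρ κ : Equiv.Perm (Fin w)) (G : Gr w) : rl ρ κ (rl ρ⁻¹ κ⁻¹ G) = G := by
  ext ⟨a, b⟩
  rw [mem_rl, mem_rl, ia, ia]

theorem rl_mono (ρ κ : Equiv.Perm (Fin w)) (h : G' ⊆ G) : rl ρ κ G' ⊆ rl ρ κ G := by
  rintro ⟨a, b⟩ hab
  rw [mem_rl] at hab ⊢
  exact h hab

theorem rl_core (ρ κ : Equiv.Perm (Fin w)) (h : IsCore G) : IsCore (rl ρ κ G) where
  ex := by
    obtain ⟨σ, hσ⟩ := h.ex
    refine ⟨κ⁻¹ * σ * ρ, fun i => ?_⟩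
    rw [mem_rl, Equiv.Perm.mul_apply, Equiv.Perm.mul_apply, ai]
    exact hσ (ρ i)
  edge := by
    intro a b hab
    rw [mem_rl] at hab
    obtain ⟨σ, hσ, h1⟩ := h.edge _ _ hab
    refine ⟨κ⁻¹ * σ * ρ, fun i => ?_, ?_⟩
    · rw [mem_rl, Equiv.Perm.mul_apply, Equiv.Perm.mul_apply, ai]
      exact hσ (ρ i)
    · rw [Equiv.Perm.mul_apply, Equiv.Perm.mul_apply, h1, ia]

theorem rl_AC (ρ κ : Equiv.Perm (Fin w)) (h : AC G) : AC (rl ρ κ G) := by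
  intro a a' b b' h1 h2 h3
  rw [mem_rl] at h1 h2 h3 ⊢
  exact h _ _ _ _ h1 h2 h3

theorem rl_rdeg (ρ κ : Equiv.Perm (Fin w)) (G : Gr w) (a : Fin w) :
    rdeg (rl ρ κ G) a = rdeg G (ρ a) := by
  refine Finset.card_bij (fun b _ => κ b) ?_ ?_ ?_
  · intro b hb
    rw [Finset.mem_filter, mem_rl] at hb
    rw [Finset.mem_filter]
    exact ⟨Finset.mem_univ _, hb.2⟩
  · intro b _ b' _ h
    exact κ.injective h
  · intro b hb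
    rw [Finset.mem_filter] at hb
    refine ⟨κ.symm b, ?_, Equiv.apply_symm_apply κ b⟩
    rw [Finset.mem_filter, mem_rl, Equiv.apply_symm_apply]
    exact ⟨Finset.mem_univ _, hb.2⟩

theorem rl_cdeg (ρ κ : Equiv.Perm (Fin w)) (G : Gr w) (b : Fin w) :
    cdeg (rl ρ κ G) b = cdeg G (κ b) := by
  refine Finset.card_bij (fun a _ => ρ a) ?_ ?_ ?_
  · intro a ha
    rw [Finset.mem_filter, mem_rl] at ha
    rw [Finset.mem_filter]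
    exact ⟨Finset.mem_univ _, ha.2⟩
  · intro a _ a' _ h
    exact ρ.injective h
  · intro a ha
    rw [Finset.mem_filter] at ha
    refine ⟨ρ.symm a, ?_, Equiv.apply_symm_apply ρ a⟩
    rw [Finset.mem_filter, mem_rl, Equiv.apply_symm_apply]
    exact ⟨Finset.mem_univ _, ha.2⟩

theorem rl_card (ρ κ : Equiv.Perm (Fin w)) (G : Gr w) : (rl ρ κ G).card = G.card := by
  refine Finset.card_bij (fun e _ => (ρ e.1, κ e.2)) ?_ ?_ ?_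
  · rintro ⟨a, b⟩ h
    rw [mem_rl] at h
    exact h
  · rintro ⟨a, b⟩ _ ⟨a', b'⟩ _ h
    simp only [Prod.mk.injEq, EmbeddingLike.apply_eq_iff_eq] at h
    rw [h.1, h.2]
  · rintro ⟨a, b⟩ h
    refine ⟨(ρ.symm a, κ.symm b), ?_, ?_⟩
    · rw [mem_rl, Equiv.apply_symm_apply, Equiv.apply_symm_apply]
      exact h
    · simp

theorem rl_hs (ρ κ : Equiv.Perm (Fin w)) (G : Gr w) : hs (rl ρ κ G) = hs G := by
  unfold hs
  simp only [rl_rdeg, rl_cdeg]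
  rw [Equiv.sum_comp ρ (fun a => Real.log (rdeg G a : ℝ)),
    Equiv.sum_comp κ (fun b => Real.log (cdeg G b : ℝ))]

theorem rl_nb (ρ κ : Equiv.Perm (Fin w)) (G : Gr w) : nb (rl ρ κ G) = nb G := by
  unfold nb
  simp only [rl_rdeg, rl_cdeg]
  rw [Equiv.sum_comp ρ (fun a => (rdeg G a : ℝ)⁻¹), Equiv.sum_comp κ (fun b => (cdeg G b : ℝ)⁻¹)]

theorem rl_vs (ρ κ : Equiv.Perm (Fin w)) (G : Gr w) : vs (rl ρ κ G) = vs G := by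
  apply Set.eq_of_subset_of_subset
  · rintro t ⟨G', h1, h2, h3, rfl⟩
    refine ⟨rl ρ⁻¹ κ⁻¹ G', rl_core _ _ h1, ?_, rl_AC _ _ h3, (rl_nb _ _ _).symm⟩
    have := rl_mono ρ⁻¹ κ⁻¹ h2
    rwa [rl_inv] at this
  · rintro t ⟨G', h1, h2, h3, rfl⟩
    exact ⟨rl ρ κ G', rl_core _ _ h1, rl_mono _ _ h2, rl_AC _ _ h3, (rl_nb _ _ _).symm⟩

theorem rl_WW (ρ κ : Equiv.Perm (Fin w)) (G : Gr w) : WW (rl ρ κ G) = WW G := by
  unfold WW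
  rw [rl_hs]
  congr 1
  exact congrArg sInf (rl_vs ρ κ G)

theorem sub_l {G₁ G₂ : Gr w} {τ : Equiv.Perm (Fin w)} (h : PM G₂ τ) :
    rl 1 τ⁻¹ G₁ ⊆ comp G₁ G₂ := by
  rintro ⟨a, b⟩ hab
  rw [mem_rl, Equiv.Perm.one_apply] at hab
  refine mem_comp.2 ⟨τ⁻¹ b, hab, ?_⟩
  have := h (τ⁻¹ b)
  rwa [ai] at this

theorem sub_r {G₁ G₂ : Gr w} {σ : Equiv.Perm (Fin w)} (h : PM G₁ σ) :
    rl σ 1 G₂ ⊆ comp G₁ G₂ := by
  rintro ⟨a, b⟩ hab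
  rw [mem_rl, Equiv.Perm.one_apply] at hab
  exact mem_comp.2 ⟨σ a, h a, hab⟩

end

/-- **CK**, the composition of two cores is a core. -/
theorem st_CK : ST_CK := by
  intro w G₁ G₂ h1 h2
  refine ⟨?_, ?_⟩
  · obtain ⟨σ, hσ⟩ := h1.ex
    obtain ⟨τ, hτ⟩ := h2.ex
    exact ⟨τ * σ, fun i => mem_comp.2 ⟨σ i, hσ i, hτ (σ i)⟩⟩
  · intro a b hab
    obtain ⟨x, e1, e2⟩ := mem_comp.1 hab
    obtain ⟨σ, hσ, k1⟩ := h1.edge _ _ e1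
    obtain ⟨τ, hτ, k2⟩ := h2.edge _ _ e2
    refine ⟨τ * σ, fun i => mem_comp.2 ⟨σ i, hσ i, hτ (σ i)⟩, ?_⟩
    rw [Equiv.Perm.mul_apply, k1, k2]

/-- **WG**, the children. -/
theorem st_WG : ST_WG := by
  intro w G G₁ G₂ hG h1 h2 hsub
  obtain ⟨σ, hσ⟩ := h1.ex
  obtain ⟨τ, hτ⟩ := h2.ex
  constructor
  · rw [← rl_WW 1 τ⁻¹ G₁]
    exact st_WM w G _ hG (rl_core _ _ h1) ((sub_l hτ).trans hsub)
  · rw [← rl_WW σ 1 G₂]
    exact st_WM w G _ hG (rl_core _ _ h2) ((sub_r hσ).trans hsub)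

/-- **LW**, Lemma W. -/
theorem st_LW : ST_LW := by
  classical
  intro w G G₁ G₂ hG h1 h2 hcomp hc1 hc2
  obtain ⟨σ, hσ⟩ := h1.ex
  obtain ⟨τ, hτ⟩ := h2.ex
  by_cases hAC : AC G
  · left
    rw [← rl_WW 1 τ⁻¹ G₁]
    have := st_W1 w G (rl 1 τ⁻¹ G₁) hG hAC (rl_core _ _ h1) (hcomp ▸ sub_l hτ) (by
      intro heq
      have e1 := rl_card 1 τ⁻¹ G₁
      rw [heq] at e1
      omega)
    linarith
  · rcases st_LX w G G₁ G₂ h1 h2 hcomp hAC with ⟨x, b, e1, e2⟩ | ⟨a, x, e1, e2⟩ | ⟨a, e2⟩ | ⟨b, e2⟩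
    · left
      obtain ⟨τ', hτ', e3⟩ := h2.edge _ _ e1
      rw [← rl_WW 1 τ'⁻¹ G₁]
      refine st_WD w G _ hG (rl_core _ _ h1) (hcomp ▸ sub_l hτ') (Or.inr ⟨b, ?_⟩)
      rw [rl_cdeg, ← e3, ia, e3]
      exact e2
    · right
      obtain ⟨σ', hσ', e3⟩ := h1.edge _ _ e1
      rw [← rl_WW σ' 1 G₂]
      refine st_WD w G _ hG (rl_core _ _ h2) (hcomp ▸ sub_r hσ') (Or.inl ⟨a, ?_⟩)
      rw [rl_rdeg, e3]
      exact e2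
    · left
      rw [← rl_WW 1 τ⁻¹ G₁]
      refine st_WD w G _ hG (rl_core _ _ h1) (hcomp ▸ sub_l hτ) (Or.inl ⟨a, ?_⟩)
      rw [rl_rdeg, Equiv.Perm.one_apply]
      exact e2
    · right
      rw [← rl_WW σ 1 G₂]
      refine st_WD w G _ hG (rl_core _ _ h2) (hcomp ▸ sub_r hσ) (Or.inr ⟨b, ?_⟩)
      rw [rl_cdeg, Equiv.Perm.one_apply]
      exact e2

end Pool.Agent.Helper2.D5
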