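import Pool.Agent.Helper33.DP.Defs

/-!
# MP_fcb106_co, exponent 5: Lemma X

If no relative degree drops by more than one fiftieth in the composition of two cores, then the
composition is a union of complete bipartite graphs.
-/

set_option autoImplicit false

namespace Pool.Agent.Helper2.D5

open Finset Pool.Agent.Helper33.DP

/-- the columns of a row -/
def rN {w : ℕ} (G : Gr w) (a : Fin w) : Finset (Fin w) := univ.filter (fun b => (a, b) ∈ G)

/-- the rows of a column -/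
def cN {w : ℕ} (G : Gr w) (b : Fin w) : Finset (Fin w) := univ.filter (fun a => (a, b) ∈ G)

theorem mem_rN {w : ℕ} {G : Gr w} {a b : Fin w} : b ∈ rN G a ↔ (a, b) ∈ G := by simp [rN]

theorem mem_cN {w : ℕ} {G : Gr w} {a b : Fin w} : a ∈ cN G b ↔ (a, b) ∈ G := by simp [cN]

theorem mem_comp {w : ℕ} {G₁ G₂ : Gr w} {a b : Fin w} :
    (a, b) ∈ comp G₁ G₂ ↔ ∃ x, (a, x) ∈ G₁ ∧ (x, b) ∈ G₂ := by
  simp [comp]

/-- double counting -/
theorem dc {w : ℕ} (G : Gr w) (S T : Finset (Fin w)) :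
    ∑ x ∈ S, ((rN G x ∩ T).card : ℝ) = ∑ b ∈ T, ((cN G b ∩ S).card : ℝ) := by
  have h := Finset.sum_card_bipartiteAbove_eq_sum_card_bipartiteBelow
    (s := S) (t := T) (fun x b => (x, b) ∈ G)
  have h1 : ∀ x, Finset.bipartiteAbove (fun x b => (x, b) ∈ G) T x = rN G x ∩ T := by
    intro x
    ext b
    simp [Finset.mem_bipartiteAbove, mem_rN, and_comm]
  have h2 : ∀ b, Finset.bipartiteBelow (fun x b => (x, b) ∈ G) S b = cN G b ∩ S := by
    intro b
    ext x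
    simp [Finset.mem_bipartiteBelow, mem_cN, and_comm]
  simp only [h1, h2] at h
  exact_mod_cast h

/-- inclusion and exclusion -/
theorem ie {α : Type} [DecidableEq α] {A B C : Finset α} (hA : A ⊆ C) (hB : B ⊆ C) :
    (A.card : ℝ) + B.card - C.card ≤ (A ∩ B).card := by
  have h1 := Finset.card_union_add_card_inter A B
  have h2 := Finset.card_le_card (Finset.union_subset hA hB)
  have h3 : A.card + B.card ≤ C.card + (A ∩ B).card := by omega
  have h4 : (A.card : ℝ) + B.card ≤ C.card + (A ∩ B).card := by exact_mod_cast h3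
  linarith

theorem card_split {α : Type} [DecidableEq α] (A B : Finset α) :
    (A.card : ℝ) = (A ∩ B).card + (A \ B).card := by
  have h := Finset.card_inter_add_card_sdiff A B
  have h2 : ((A ∩ B).card : ℝ) + (A \ B).card = A.card := by exact_mod_cast h
  linarith

/-- the hypotheses of Lemma X -/
structure Near {w : ℕ} (G₁ G₂ : Gr w) : Prop where
  c1 : IsCore G₁
  c2 : IsCore G₂
  h1 : ∀ x b, (x, b) ∈ G₂ → 49 / 50 * ((cN (comp G₁ G₂) b).card : ℝ) ≤ (cN G₁ x).card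
  h2 : ∀ a x, (a, x) ∈ G₁ → 49 / 50 * ((rN (comp G₁ G₂) a).card : ℝ) ≤ (rN G₂ x).card
  h3 : ∀ a, 49 / 50 * ((rN (comp G₁ G₂) a).card : ℝ) ≤ (rN G₁ a).card
  h4 : ∀ b, 49 / 50 * ((cN (comp G₁ G₂) b).card : ℝ) ≤ (cN G₂ b).card

section

variable {w : ℕ} {G₁ G₂ : Gr w}

theorem sub1 {a x : Fin w} (h : (a, x) ∈ G₁) : rN G₂ x ⊆ rN (comp G₁ G₂) a := by
  intro b hb
  rw [mem_rN] at hb ⊢
  exact mem_comp.2 ⟨x, h, hb⟩

theorem sub2 {x b : Fin w} (h : (x, b) ∈ G₂) : cN G₁ x ⊆ cN (comp G₁ G₂) b := by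
  intro a ha
  rw [mem_cN] at ha ⊢
  exact mem_comp.2 ⟨x, ha, h⟩

theorem card1 (hc : IsCore G₂) (a : Fin w) : (rN G₁ a).card ≤ (rN (comp G₁ G₂) a).card := by
  obtain ⟨τ, hτ⟩ := hc.ex
  refine Finset.card_le_card_of_injOn τ ?_ τ.injective.injOn
  intro x hx
  have hx : x ∈ rN G₁ a := hx
  show τ x ∈ rN (comp G₁ G₂) a
  rw [mem_rN] at hx ⊢
  exact mem_comp.2 ⟨x, hx, hτ x⟩

theorem card2 (hc : IsCore G₁) (b : Fin w) : (cN G₂ b).card ≤ (cN (comp G₁ G₂) b).card := by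
  obtain ⟨σ, hσ⟩ := hc.ex
  refine Finset.card_le_card_of_injOn σ.symm ?_ σ.symm.injective.injOn
  intro x hx
  have hx : x ∈ cN G₂ b := hx
  show σ.symm x ∈ cN (comp G₁ G₂) b
  rw [mem_cN] at hx ⊢
  refine mem_comp.2 ⟨x, ?_, hx⟩
  have := hσ (σ.symm x)
  rwa [Equiv.apply_symm_apply] at this

/-- steps (1) to (4) -/
theorem key (N : Near G₁ G₂) {z a b : Fin w} (ha : (a, z) ∈ G₁) (hb : (z, b) ∈ G₂) :
    7 * ((cN G₂ b \ rN G₁ a).card : ℝ) ≤ (cN G₂ b).card ∧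
    5 * ((rN G₁ a \ cN G₂ b).card : ℝ) ≤ (rN G₁ a).card ∧
    24 * ((rN G₁ a).card : ℝ) ≤ 25 * (cN G₁ z).card := by
  classical
  set k : ℝ := ((cN G₁ z).card : ℝ) with hk
  set l : ℝ := ((rN G₂ z).card : ℝ) with hl
  have k1 : 1 ≤ k := by
    have : 0 < (cN G₁ z).card := Finset.card_pos.2 ⟨a, mem_cN.2 ha⟩
    rw [hk]
    exact_mod_cast this
  have l1 : 1 ≤ l := by
    have : 0 < (rN G₂ z).card := Finset.card_pos.2 ⟨b, mem_rN.2 hb⟩
    rw [hl]
    exact_mod_cast this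
  -- degrees
  have dr : ∀ a' ∈ cN G₁ z, l ≤ ((rN (comp G₁ G₂) a').card : ℝ) ∧
      49 / 50 * ((rN (comp G₁ G₂) a').card : ℝ) ≤ l := by
    intro a' ha'
    rw [mem_cN] at ha'
    refine ⟨?_, N.h2 a' z ha'⟩
    rw [hl]
    exact_mod_cast Finset.card_le_card (sub1 ha')
  have dcol : ∀ b' ∈ rN G₂ z, k ≤ ((cN (comp G₁ G₂) b').card : ℝ) ∧
      49 / 50 * ((cN (comp G₁ G₂) b').card : ℝ) ≤ k := by
    intro b' hb'
    rw [mem_rN] at hb'
    refine ⟨?_, N.h1 z b' hb'⟩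
    rw [hk]
    exact_mod_cast Finset.card_le_card (sub2 hb')
  -- (1) the set M
  set M : Finset (Fin w) := univ.filter (fun x => 48 / 49 * l ≤ ((rN G₂ x ∩ rN G₂ z).card : ℝ))
    with hM
  have XM : ∀ a' ∈ cN G₁ z, rN G₁ a' ⊆ M := by
    intro a' ha' x hx
    obtain ⟨e1, e2⟩ := dr a' ha'
    rw [mem_cN] at ha'
    rw [mem_rN] at hx
    rw [hM, Finset.mem_filter]
    refine ⟨Finset.mem_univ _, ?_⟩
    have e3 := ie (sub1 (G₂ := G₂) hx) (sub1 (G₂ := G₂) ha')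
    have e4 := N.h2 a' x hx
    rw [← hl] at e3
    linarith
  have Mcard : (M.card : ℝ) ≤ 25 / 24 * k := by
    have e1 : (M.card : ℝ) * (48 / 49 * l) ≤ ∑ x ∈ M, ((rN G₂ x ∩ rN G₂ z).card : ℝ) := by
      rw [← nsmul_eq_mul]
      refine Finset.card_nsmul_le_sum _ _ _ fun x hx => ?_
      rw [hM, Finset.mem_filter] at hx
      exact hx.2
    rw [dc] at e1
    have e2 : ∑ b' ∈ rN G₂ z, ((cN G₂ b' ∩ M).card : ℝ) ≤ (rN G₂ z).card • (50 / 49 * k) := by
      refine Finset.sum_le_card_nsmul _ _ _ fun b' hb' => ?_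
      obtain ⟨e3, e4⟩ := dcol b' hb'
      have e5 : ((cN G₂ b' ∩ M).card : ℝ) ≤ (cN G₂ b').card := by
        exact_mod_cast Finset.card_le_card Finset.inter_subset_left
      have e6 : ((cN G₂ b').card : ℝ) ≤ (cN (comp G₁ G₂) b').card := by
        exact_mod_cast card2 N.c1 b'
      linarith
    rw [nsmul_eq_mul, ← hl] at e2
    have e3 : ((M.card : ℝ) * (48 / 49)) * l ≤ (50 / 49 * k) * l := by nlinarith
    have e4 := le_of_mul_le_mul_right e3 (by linarith : (0 : ℝ) < l)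
    linarith
  -- (1) mirrored
  set M' : Finset (Fin w) := univ.filter (fun x => 48 / 49 * k ≤ ((cN G₁ x ∩ cN G₁ z).card : ℝ))
    with hM'
  have YM : ∀ b' ∈ rN G₂ z, cN G₂ b' ⊆ M' := by
    intro b' hb' x hx
    obtain ⟨e1, e2⟩ := dcol b' hb'
    rw [mem_rN] at hb'
    rw [mem_cN] at hx
    rw [hM', Finset.mem_filter]
    refine ⟨Finset.mem_univ _, ?_⟩
    have e3 := ie (sub2 (G₁ := G₁) hx) (sub2 (G₁ := G₁) hb')
    have e4 := N.h1 x b' hx
    rw [← hk] at e3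
    linarith
  have Mcard' : (M'.card : ℝ) ≤ 25 / 24 * l := by
    have e1 : (M'.card : ℝ) * (48 / 49 * k) ≤ ∑ x ∈ M', ((cN G₁ x ∩ cN G₁ z).card : ℝ) := by
      rw [← nsmul_eq_mul]
      refine Finset.card_nsmul_le_sum _ _ _ fun x hx => ?_
      rw [hM', Finset.mem_filter] at hx
      exact hx.2
    rw [← dc G₁ (cN G₁ z) M'] at e1
    have e2 : ∑ a' ∈ cN G₁ z, ((rN G₁ a' ∩ M').card : ℝ) ≤ (cN G₁ z).card • (50 / 49 * l) := by
      refine Finset.sum_le_card_nsmul _ _ _ fun a' ha' => ?_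
      obtain ⟨e3, e4⟩ := dr a' ha'
      have e5 : ((rN G₁ a' ∩ M').card : ℝ) ≤ (rN G₁ a').card := by
        exact_mod_cast Finset.card_le_card Finset.inter_subset_left
      have e6 : ((rN G₁ a').card : ℝ) ≤ (rN (comp G₁ G₂) a').card := by
        exact_mod_cast card1 N.c2 a'
      linarith
    rw [nsmul_eq_mul, ← hk] at e2
    have e3 : ((M'.card : ℝ) * (48 / 49)) * k ≤ (50 / 49 * l) * k := by nlinarith
    have e4 := le_of_mul_le_mul_right e3 (by linarith : (0 : ℝ) < k)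
    linarith
  -- (2)
  have haz : a ∈ cN G₁ z := mem_cN.2 ha
  have hbz : b ∈ rN G₂ z := mem_rN.2 hb
  obtain ⟨ra1, ra2⟩ := dr a haz
  obtain ⟨cb1, cb2⟩ := dcol b hbz
  have Yb : 49 / 50 * k ≤ ((cN G₂ b).card : ℝ) := by
    have := N.h4 b
    linarith
  have YM' : ((cN G₂ b).card : ℝ) ≤ M'.card := by exact_mod_cast Finset.card_le_card (YM b hbz)
  have lk : 588 / 625 * k ≤ l := by linarith
  have Xa : 49 / 50 * l ≤ ((rN G₁ a).card : ℝ) := by
    have := N.h3 a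
    linarith
  have XaM : rN G₁ a ⊆ M := XM a haz
  have MX : ((M \ rN G₁ a).card : ℝ) ≤ 3 / 25 * k := by
    have e1 := card_split M (rN G₁ a)
    have e2 : M ∩ rN G₁ a = rN G₁ a := Finset.inter_eq_right.2 XaM
    rw [e2] at e1
    linarith
  -- (3)
  have YMs : ((cN G₂ b \ M).card : ℝ) ≤ 1 / 49 * (cN G₂ b).card := by
    have e1 : ((cN G₂ b).card : ℝ) * (48 / 49 * k) ≤
        ∑ x ∈ cN G₂ b, ((cN G₁ x ∩ cN G₁ z).card : ℝ) := by
      rw [← nsmul_eq_mul]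
      refine Finset.card_nsmul_le_sum _ _ _ fun x hx => ?_
      have := YM b hbz hx
      rw [hM', Finset.mem_filter] at this
      exact this.2
    rw [← dc G₁ (cN G₁ z) (cN G₂ b)] at e1
    have e2 : ∑ a' ∈ cN G₁ z, ((rN G₁ a' ∩ cN G₂ b).card : ℝ) ≤
        (cN G₁ z).card • ((cN G₂ b ∩ M).card : ℝ) := by
      refine Finset.sum_le_card_nsmul _ _ _ fun a' ha' => ?_
      have : rN G₁ a' ∩ cN G₂ b ⊆ cN G₂ b ∩ M := by
        intro x hx
        rw [Finset.mem_inter] at hx ⊢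
        exact ⟨hx.2, XM a' ha' hx.1⟩
      exact_mod_cast Finset.card_le_card this
    rw [nsmul_eq_mul, ← hk] at e2
    have e3 : (((cN G₂ b).card : ℝ) * (48 / 49)) * k ≤ ((cN G₂ b ∩ M).card : ℝ) * k := by
      nlinarith
    have e4 := le_of_mul_le_mul_right e3 (by linarith : (0 : ℝ) < k)
    have e5 := card_split (cN G₂ b) M
    linarith
  -- (4)
  have f1 : ((cN G₂ b \ rN G₁ a).card : ℝ) ≤ 1 / 7 * (cN G₂ b).card := by
    have e1 : cN G₂ b \ rN G₁ a ⊆ (cN G₂ b \ M) ∪ (M \ rN G₁ a) := by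
      intro x hx
      rw [Finset.mem_sdiff] at hx
      rw [Finset.mem_union, Finset.mem_sdiff, Finset.mem_sdiff]
      by_cases h : x ∈ M
      · exact Or.inr ⟨h, hx.2⟩
      · exact Or.inl ⟨hx.1, h⟩
    have e2 : ((cN G₂ b \ rN G₁ a).card : ℝ) ≤ (cN G₂ b \ M).card + (M \ rN G₁ a).card := by
      exact_mod_cast (Finset.card_le_card e1).trans (Finset.card_union_le _ _)
    linarith
  have XaC : ((rN G₁ a).card : ℝ) ≤ 25 / 24 * k := by
    have : ((rN G₁ a).card : ℝ) ≤ M.card := by exact_mod_cast Finset.card_le_card XaM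
    linarith
  have f2 := card_split (cN G₂ b) (rN G₁ a)
  have f3 := card_split (rN G₁ a) (cN G₂ b)
  rw [Finset.inter_comm] at f3
  refine ⟨by linarith, by linarith, by linarith⟩

/-- **Lemma X** -/
theorem LX (N : Near G₁ G₂) {a a' b b' : Fin w} (h1 : (a, b') ∈ comp G₁ G₂)
    (h2 : (a', b') ∈ comp G₁ G₂) (h3 : (a', b) ∈ comp G₁ G₂) : (a, b) ∈ comp G₁ G₂ := by
  classical
  by_contra hcon
  obtain ⟨z, ha, hb'⟩ := mem_comp.1 h1
  obtain ⟨z', ha', hb''⟩ := mem_comp.1 h2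
  obtain ⟨z'', ha'', hb⟩ := mem_comp.1 h3
  obtain ⟨p1, -, -⟩ := key N ha hb'
  obtain ⟨q1, -, q3⟩ := key N ha' hb''
  obtain ⟨-, r2, -⟩ := key N ha'' hb
  set Y := cN G₂ b' with hY
  have Y1 : (1 : ℝ) ≤ Y.card := by
    have : 0 < Y.card := Finset.card_pos.2 ⟨z, mem_cN.2 hb'⟩
    exact_mod_cast this
  have k' : ((cN G₁ z').card : ℝ) ≤ 50 / 49 * Y.card := by
    have e1 : ((cN G₁ z').card : ℝ) ≤ (cN (comp G₁ G₂) b').card := by
      exact_mod_cast Finset.card_le_card (sub2 hb'')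
    have e2 := N.h4 b'
    rw [← hY] at e2
    linarith
  have s1 : Y ⊆ (Y \ rN G₁ a) ∪ ((Y \ rN G₁ a') ∪ (rN G₁ a' \ cN G₂ b)) := by
    intro x hx
    by_cases e1 : x ∈ rN G₁ a
    · refine Finset.mem_union_right _ ?_
      by_cases e2 : x ∈ rN G₁ a'
      · refine Finset.mem_union_right _ ?_
        rw [Finset.mem_sdiff]
        refine ⟨e2, fun e3 => hcon ?_⟩
        rw [mem_rN] at e1
        rw [mem_cN] at e3
        exact mem_comp.2 ⟨x, e1, e3⟩
      · exact Finset.mem_union_left _ (Finset.mem_sdiff.2 ⟨hx, e2⟩)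
    · exact Finset.mem_union_left _ (Finset.mem_sdiff.2 ⟨hx, e1⟩)
  have s2 : (Y.card : ℝ) ≤ (Y \ rN G₁ a).card + ((Y \ rN G₁ a').card + (rN G₁ a' \ cN G₂ b).card) := by
    have e1 := Finset.card_le_card s1
    have e2 := Finset.card_union_le (Y \ rN G₁ a) ((Y \ rN G₁ a') ∪ (rN G₁ a' \ cN G₂ b))
    have e3 := Finset.card_union_le (Y \ rN G₁ a') (rN G₁ a' \ cN G₂ b)
    exact_mod_cast (by omega : Y.card ≤ (Y \ rN G₁ a).card +
      ((Y \ rN G₁ a').card + (rN G₁ a' \ cN G₂ b).card))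
  linarith

end

end Pool.Agent.Helper2.D5
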