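import Pool.Agent.Helper26.D5.Sheet
import Pool.Agent.Helper2.D5.LX

/-!
# MP_fcb106_co, version 5: the rows LX, WM, WB, WD, W1
-/

set_option autoImplicit false

namespace Pool.Agent.Helper2.D5

open Finset Pool.Agent.Helper33.DP Pool.Agent.Helper63.D4 Pool.Agent.Helper26.D5

/-- **LX**, Lemma X. -/
theorem st_LX : ST_LX := by
  classical
  intro w G G₁ G₂ c1 c2 hG hAC
  subst hG
  by_contra hcon
  push Not at hcon
  obtain ⟨h1, h2, h3, h4⟩ := hcon
  have cast : ∀ m n : ℕ, 49 * m ≤ 50 * n → 49 / 50 * (m : ℝ) ≤ n := by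
    intro m n h
    have : (49 : ℝ) * m ≤ 50 * n := by exact_mod_cast h
    linarith
  have N : Near G₁ G₂ :=
    { c1 := c1
      c2 := c2
      h1 := fun x b h => cast _ _ (h1 x b h)
      h2 := fun a x h => cast _ _ (h2 a x h)
      h3 := fun a => cast _ _ (h3 a)
      h4 := fun b => cast _ _ (h4 b) }
  exact hAC fun a a' b b' e1 e2 e3 => LX N e1 e2 e3

section

variable {w : ℕ} {G G' : Gr w}

theorem rdeg_eq (G : Gr w) (a : Fin w) : rdeg G a = (rN G a).card := rfl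

theorem cdeg_eq (G : Gr w) (b : Fin w) : cdeg G b = (cN G b).card := rfl

theorem rN_mono (h : G' ⊆ G) (a : Fin w) : rN G' a ⊆ rN G a := by
  intro b hb
  rw [mem_rN] at hb ⊢
  exact h hb

theorem cN_mono (h : G' ⊆ G) (b : Fin w) : cN G' b ⊆ cN G b := by
  intro a ha
  rw [mem_cN] at ha ⊢
  exact h ha

theorem rdeg_mono (h : G' ⊆ G) (a : Fin w) : rdeg G' a ≤ rdeg G a :=
  Finset.card_le_card (rN_mono h a)

theorem cdeg_mono (h : G' ⊆ G) (b : Fin w) : cdeg G' b ≤ cdeg G b :=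
  Finset.card_le_card (cN_mono h b)

theorem rdeg_pos (h : IsCore G) (a : Fin w) : 1 ≤ rdeg G a := by
  obtain ⟨σ, hσ⟩ := h.ex
  exact Finset.card_pos.2 ⟨σ a, mem_rN.2 (hσ a)⟩

theorem cdeg_pos (h : IsCore G) (b : Fin w) : 1 ≤ cdeg G b := by
  obtain ⟨σ, hσ⟩ := h.ex
  refine Finset.card_pos.2 ⟨σ.symm b, mem_cN.2 ?_⟩
  have := hσ (σ.symm b)
  rwa [Equiv.apply_symm_apply] at this

theorem log_mono {m n : ℕ} (hm : 1 ≤ m) (h : m ≤ n) : Real.log (m : ℝ) ≤ Real.log n :=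
  Real.log_le_log (by exact_mod_cast hm) (by exact_mod_cast h)

theorem inv_mono {m n : ℕ} (hm : 1 ≤ m) (h : m ≤ n) : (n : ℝ)⁻¹ ≤ (m : ℝ)⁻¹ :=
  inv_anti₀ (by exact_mod_cast hm) (by exact_mod_cast h)

theorem hs_mono (hG' : IsCore G') (h : G' ⊆ G) : hs G' ≤ hs G := by
  unfold hs
  refine add_le_add (Finset.sum_le_sum fun a _ => ?_) (Finset.sum_le_sum fun b _ => ?_)
  · exact log_mono (rdeg_pos hG' a) (rdeg_mono h a)
  · exact log_mono (cdeg_pos hG' b) (cdeg_mono h b)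

theorem hs_nonneg (hG : IsCore G) : 0 ≤ hs G := by
  unfold hs
  refine add_nonneg (Finset.sum_nonneg fun a _ => ?_) (Finset.sum_nonneg fun b _ => ?_)
  · exact Real.log_nonneg (by exact_mod_cast rdeg_pos hG a)
  · exact Real.log_nonneg (by exact_mod_cast cdeg_pos hG b)

theorem nb_nonneg (G : Gr w) : 0 ≤ nb G := by
  unfold nb
  have h1 : 0 ≤ ∑ a, (rdeg G a : ℝ)⁻¹ := Finset.sum_nonneg fun a _ => by positivity
  have h2 : 0 ≤ ∑ b, (cdeg G b : ℝ)⁻¹ := Finset.sum_nonneg fun a _ => by positivity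
  linarith

/-- the graph of a permutation -/
def gp (σ : Equiv.Perm (Fin w)) : Gr w := univ.filter (fun e => σ e.1 = e.2)

theorem mem_gp {σ : Equiv.Perm (Fin w)} {a b : Fin w} : (a, b) ∈ gp σ ↔ σ a = b := by
  simp [gp]

theorem gp_core (σ : Equiv.Perm (Fin w)) : IsCore (gp σ) where
  ex := ⟨σ, fun _ => mem_gp.2 rfl⟩
  edge := fun _ _ h => ⟨σ, fun _ => mem_gp.2 rfl, mem_gp.1 h⟩

theorem gp_AC (σ : Equiv.Perm (Fin w)) : AC (gp σ) := by
  intro a a' b b' h1 h2 h3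
  rw [mem_gp] at h1 h2 h3 ⊢
  have h4 : a = a' := σ.injective (h1.trans h2.symm)
  rw [h4, h3]

theorem gp_rdeg (σ : Equiv.Perm (Fin w)) (a : Fin w) : rdeg (gp σ) a = 1 := by
  rw [rdeg_eq, Finset.card_eq_one]
  refine ⟨σ a, ?_⟩
  ext b
  rw [mem_rN, mem_gp, Finset.mem_singleton, eq_comm]

theorem gp_cdeg (σ : Equiv.Perm (Fin w)) (b : Fin w) : cdeg (gp σ) b = 1 := by
  rw [cdeg_eq, Finset.card_eq_one]
  refine ⟨σ.symm b, ?_⟩
  ext a
  rw [mem_cN, mem_gp, Finset.mem_singleton, Equiv.eq_symm_apply]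

theorem gp_nb (σ : Equiv.Perm (Fin w)) : nb (gp σ) = w := by
  unfold nb
  simp only [gp_rdeg, gp_cdeg, Nat.cast_one, inv_one, Finset.sum_const, Finset.card_univ,
    Fintype.card_fin, nsmul_eq_mul, mul_one]
  ring

theorem gp_sub {σ : Equiv.Perm (Fin w)} (h : PM G σ) : gp σ ⊆ G := by
  intro e he
  obtain ⟨a, b⟩ := e
  rw [mem_gp] at he
  rw [← he]
  exact h a

/-- the set of the definition of `vv` -/
def vs (G : Gr w) : Set ℝ := {t : ℝ | ∃ G' : Gr w, IsCore G' ∧ G' ⊆ G ∧ AC G' ∧ t = nb G'}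

theorem vs_bdd (G : Gr w) : BddBelow (vs G) := ⟨0, by
  rintro t ⟨G', -, -, -, rfl⟩
  exact nb_nonneg G'⟩

theorem vs_ne (hG : IsCore G) : (vs G).Nonempty := by
  obtain ⟨σ, hσ⟩ := hG.ex
  exact ⟨nb (gp σ), gp σ, gp_core σ, gp_sub hσ, gp_AC σ, rfl⟩

theorem vv_nonneg (G : Gr w) : 0 ≤ vv G := by
  refine Real.sInf_nonneg ?_
  rintro t ⟨G', -, -, -, rfl⟩
  exact nb_nonneg G'

theorem vv_le (hG : IsCore G) : vv G ≤ w := by
  obtain ⟨σ, hσ⟩ := hG.ex
  rw [← gp_nb σ]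
  exact csInf_le (vs_bdd G) ⟨gp σ, gp_core σ, gp_sub hσ, gp_AC σ, rfl⟩

theorem vv_anti (hG' : IsCore G') (h : G' ⊆ G) : vv G ≤ vv G' := by
  refine csInf_le_csInf (vs_bdd G) (vs_ne hG') ?_
  rintro t ⟨G'', h1, h2, h3, h4⟩
  exact ⟨G'', h1, h2.trans h, h3, h4⟩

/-- the rows of the component of the row `a` -/
def blk (G : Gr w) (a : Fin w) : Finset (Fin w) :=
  univ.filter (fun a' => ∃ b, (a, b) ∈ G ∧ (a', b) ∈ G)

theorem mem_blk {a a' : Fin w} : a' ∈ blk G a ↔ ∃ b, (a, b) ∈ G ∧ (a', b) ∈ G := by simp [blk]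

theorem blk_rN (hAC : AC G) {a a' : Fin w} (h : a' ∈ blk G a) : rN G a' = rN G a := by
  obtain ⟨b, h1, h2⟩ := mem_blk.1 h
  ext b'
  rw [mem_rN, mem_rN]
  exact ⟨fun h3 => hAC a a' b' b h1 h2 h3, fun h3 => hAC a' a b' b h2 h1 h3⟩

theorem blk_card (hG : IsCore G) (hAC : AC G) (a : Fin w) : (blk G a).card = rdeg G a := by
  obtain ⟨σ, hσ⟩ := hG.ex
  rw [rdeg_eq]
  refine le_antisymm ?_ ?_
  · refine Finset.card_le_card_of_injOn σ ?_ σ.injective.injOn
    intro a' ha'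
    have ha' : a' ∈ blk G a := ha'
    show σ a' ∈ rN G a
    rw [← blk_rN hAC ha', mem_rN]
    exact hσ a'
  · refine Finset.card_le_card_of_injOn σ.symm ?_ σ.symm.injective.injOn
    intro b hb
    have hb : b ∈ rN G a := hb
    show σ.symm b ∈ blk G a
    rw [mem_rN] at hb
    have h1 := hσ (σ.symm b)
    rw [Equiv.apply_symm_apply] at h1
    exact mem_blk.2 ⟨b, hb, h1⟩

/-- the number of components increases -/
theorem nb_lt (hG : IsCore G) (hAC : AC G) (hG' : IsCore G') (hAC' : AC G') (h : G' ⊆ G)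
    (hne : G' ≠ G) : nb G + 1 / 2 ≤ nb G' := by
  classical
  obtain ⟨⟨a, b⟩, he, he'⟩ : ∃ e, e ∈ G ∧ e ∉ G' := by
    by_contra hcon
    push Not at hcon
    exact hne (Finset.Subset.antisymm h hcon)
  -- the columns
  have hcol : ∑ b, (cdeg G b : ℝ)⁻¹ ≤ ∑ b, (cdeg G' b : ℝ)⁻¹ :=
    Finset.sum_le_sum fun b _ => inv_mono (cdeg_pos hG' b) (cdeg_mono h b)
  -- the rows
  set S := blk G a with hS
  set A := blk G' a with hA
  have hAS : A ⊆ S := by
    intro a' ha'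
    obtain ⟨b', h1, h2⟩ := mem_blk.1 ha'
    exact mem_blk.2 ⟨b', h h1, h h2⟩
  have hs1 : S.card = rdeg G a := blk_card hG hAC a
  have hs2 : A.card = rdeg G' a := blk_card hG' hAC' a
  have hlt : rdeg G' a < rdeg G a := by
    refine Finset.card_lt_card ?_
    refine Finset.ssubset_iff_subset_ne.2 ⟨rN_mono h a, fun heq => he' ?_⟩
    have : b ∈ rN G a := mem_rN.2 he
    rw [← mem_rN]
    show b ∈ rN G' a
    have h3 : rN G' a = rN G a := heq
    rw [h3]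
    exact this
  have hr1 : ∑ a' ∈ S, (rdeg G a' : ℝ)⁻¹ = 1 := by
    have : ∀ a' ∈ S, (rdeg G a' : ℝ)⁻¹ = (rdeg G a : ℝ)⁻¹ := by
      intro a' ha'
      rw [rdeg_eq, blk_rN hAC ha', ← rdeg_eq]
    rw [Finset.sum_congr rfl this, Finset.sum_const, nsmul_eq_mul, hs1]
    have : (rdeg G a : ℝ) ≠ 0 := by
      have := rdeg_pos hG a
      positivity
    field_simp
  have hr2 : ∑ a' ∈ A, (rdeg G' a' : ℝ)⁻¹ = 1 := by
    have : ∀ a' ∈ A, (rdeg G' a' : ℝ)⁻¹ = (rdeg G' a : ℝ)⁻¹ := by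
      intro a' ha'
      rw [rdeg_eq, blk_rN hAC' ha', ← rdeg_eq]
    rw [Finset.sum_congr rfl this, Finset.sum_const, nsmul_eq_mul, hs2]
    have : (rdeg G' a : ℝ) ≠ 0 := by
      have := rdeg_pos hG' a
      positivity
    field_simp
  have hr3 : (1 : ℝ) ≤ ∑ a' ∈ S \ A, (rdeg G' a' : ℝ)⁻¹ := by
    have hn : (S \ A).card = rdeg G a - rdeg G' a := by
      rw [Finset.card_sdiff_of_subset hAS, hs1, hs2]
    have hn0 : 1 ≤ rdeg G a - rdeg G' a := by omega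
    have h1 : ∀ a' ∈ S \ A, ((rdeg G a - rdeg G' a : ℕ) : ℝ)⁻¹ ≤ (rdeg G' a' : ℝ)⁻¹ := by
      intro a' ha'
      rw [Finset.mem_sdiff] at ha'
      refine inv_mono (rdeg_pos hG' a') ?_
      have h2 : rN G' a' ⊆ rN G a \ rN G' a := by
        intro b' hb'
        rw [Finset.mem_sdiff]
        refine ⟨?_, fun h3 => ha'.2 ?_⟩
        · rw [← blk_rN hAC ha'.1]
          exact rN_mono h a' hb'
        · rw [mem_rN] at hb' h3
          exact mem_blk.2 ⟨b', h3, hb'⟩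
      have h3 := Finset.card_le_card h2
      rw [Finset.card_sdiff_of_subset (rN_mono h a)] at h3
      exact h3
    have h2 := Finset.card_nsmul_le_sum _ _ _ h1
    rw [hn, nsmul_eq_mul] at h2
    have h3 : ((rdeg G a - rdeg G' a : ℕ) : ℝ) ≠ 0 := by positivity
    rw [mul_inv_cancel₀ h3] at h2
    exact h2
  have hr4 : ∑ a' ∈ S, (rdeg G' a' : ℝ)⁻¹ =
      ∑ a' ∈ S \ A, (rdeg G' a' : ℝ)⁻¹ + ∑ a' ∈ A, (rdeg G' a' : ℝ)⁻¹ :=
    (Finset.sum_sdiff hAS).symm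
  have hr5 : ∑ a' ∈ univ \ S, (rdeg G a' : ℝ)⁻¹ ≤ ∑ a' ∈ univ \ S, (rdeg G' a' : ℝ)⁻¹ :=
    Finset.sum_le_sum fun a' _ => inv_mono (rdeg_pos hG' a') (rdeg_mono h a')
  have hr6 : ∑ a', (rdeg G a' : ℝ)⁻¹ =
      ∑ a' ∈ univ \ S, (rdeg G a' : ℝ)⁻¹ + ∑ a' ∈ S, (rdeg G a' : ℝ)⁻¹ :=
    (Finset.sum_sdiff (Finset.subset_univ S)).symm
  have hr7 : ∑ a', (rdeg G' a' : ℝ)⁻¹ =
      ∑ a' ∈ univ \ S, (rdeg G' a' : ℝ)⁻¹ + ∑ a' ∈ S, (rdeg G' a' : ℝ)⁻¹ :=
    (Finset.sum_sdiff (Finset.subset_univ S)).symm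
  unfold nb
  linarith

end

/-- **WM**, monotonicity. -/
theorem st_WM : ST_WM := by
  intro w G G' _ hG' h
  unfold WW
  have h1 := hs_mono hG' h
  have h2 := vv_anti hG' h
  linarith

/-- **WB**, the bounds. -/
theorem st_WB : ST_WB := by
  intro w _
  refine ⟨fun G hG => ?_, ?_⟩
  · unfold WW
    have h1 := hs_nonneg hG
    have h2 := vv_le hG
    linarith
  · unfold WW
    have h1 := vv_nonneg (univ : Gr w)
    have h2 : hs (univ : Gr w) = 2 * w * Real.log w := by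
      have r1 : ∀ a, rdeg (univ : Gr w) a = w := by
        intro a
        simp [rdeg]
      have r2 : ∀ b, cdeg (univ : Gr w) b = w := by
        intro b
        simp [cdeg]
      unfold hs
      simp only [r1, r2, Finset.sum_const, Finset.card_univ, Fintype.card_fin, nsmul_eq_mul]
      ring
    linarith

/-- the drop of the logarithm -/
theorem log_drop {m n : ℕ} (hm : 1 ≤ m) (h : 50 * m < 49 * n) :
    Real.log (m : ℝ) + 1 / 50 ≤ Real.log n := by
  have m0 : (0 : ℝ) < m := by exact_mod_cast hm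
  have h1 : (50 : ℝ) * m < 49 * n := by exact_mod_cast h
  have n0 : (0 : ℝ) < n := by linarith
  have h2 : Real.log (m / n : ℝ) ≤ m / n - 1 := by
    have := Real.log_le_sub_one_of_pos (div_pos m0 n0)
    exact this
  rw [Real.log_div m0.ne' n0.ne'] at h2
  have h3 : (m / n : ℝ) ≤ 49 / 50 := by
    rw [div_le_iff₀ n0]
    linarith
  linarith

/-- **WD**, a smaller degree. -/
theorem st_WD : ST_WD := by
  classical
  intro w G G' hG hG' h hd
  unfold WW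
  have h2 := vv_anti hG' h
  have h1 : hs G' ≤ hs G - 1 / 50 := by
    unfold hs
    have r1 : ∀ a, Real.log (rdeg G' a : ℝ) ≤ Real.log (rdeg G a : ℝ) := fun a =>
      log_mono (rdeg_pos hG' a) (rdeg_mono h a)
    have c1 : ∀ b, Real.log (cdeg G' b : ℝ) ≤ Real.log (cdeg G b : ℝ) := fun b =>
      log_mono (cdeg_pos hG' b) (cdeg_mono h b)
    rcases hd with ⟨a, ha⟩ | ⟨b, hb⟩
    · have e1 := log_drop (rdeg_pos hG' a) ha
      have e2 : ∑ a', Real.log (rdeg G' a' : ℝ) + 1 / 50 ≤ ∑ a', Real.log (rdeg G a' : ℝ) := by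
        rw [← Finset.add_sum_erase _ _ (Finset.mem_univ a),
          ← Finset.add_sum_erase _ (fun a' => Real.log (rdeg G a' : ℝ)) (Finset.mem_univ a)]
        have e3 : ∑ a' ∈ univ.erase a, Real.log (rdeg G' a' : ℝ) ≤
            ∑ a' ∈ univ.erase a, Real.log (rdeg G a' : ℝ) := Finset.sum_le_sum fun a' _ => r1 a'
        linarith
      have e4 := Finset.sum_le_sum (s := (univ : Finset (Fin w))) fun b _ => c1 b
      linarith
    · have e1 := log_drop (cdeg_pos hG' b) hb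
      have e2 : ∑ b', Real.log (cdeg G' b' : ℝ) + 1 / 50 ≤ ∑ b', Real.log (cdeg G b' : ℝ) := by
        rw [← Finset.add_sum_erase _ _ (Finset.mem_univ b),
          ← Finset.add_sum_erase _ (fun b' => Real.log (cdeg G b' : ℝ)) (Finset.mem_univ b)]
        have e3 : ∑ b' ∈ univ.erase b, Real.log (cdeg G' b' : ℝ) ≤
            ∑ b' ∈ univ.erase b, Real.log (cdeg G b' : ℝ) := Finset.sum_le_sum fun b' _ => c1 b'
        linarith
      have e4 := Finset.sum_le_sum (s := (univ : Finset (Fin w))) fun a _ => r1 a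
      linarith
  linarith

/-- **W1**, a proper subgraph of an all-complete graph. -/
theorem st_W1 : ST_W1 := by
  intro w G G' hG hAC hG' h hne
  unfold WW
  have h1 := hs_mono hG' h
  have h2 : vv G ≤ nb G := csInf_le (vs_bdd G) ⟨G, hG, Finset.Subset.refl _, hAC, rfl⟩
  have h3 : nb G + 1 / 2 ≤ vv G' := by
    refine le_csInf (vs_ne hG') ?_
    rintro t ⟨G'', k1, k2, k3, rfl⟩
    refine nb_lt hG hAC k1 k3 (k2.trans h) fun heq => hne ?_
    exact Finset.Subset.antisymm h (heq ▸ k2)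
  linarith

end Pool.Agent.Helper2.D5
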